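import Pool.Agent.H.MP_6f30b3_lc.kt.AlgCor
import Pool.Agent.H.MP_6f30b3_lc.h34.Final

/-!
MP_6f30b3_lc: GRAPH ISOMORPHISM on `(co-(2P₁ + P₃), P₅)`-free graphs is solvable in polynomial time.
-/

namespace Pool.Agent.Results.MP_6f30b3_lc.PolynomialTime

open Pool.Agent.H.MP_6f30b3_lc.h34

/-- GRAPH ISOMORPHISM on `(co-(2P₁ + P₃), P₅)`-free graphs is solvable in polynomial time. -/
theorem result : GIinP ClassA := gi_iff.2 Pool.Agent.H.MP_6f30b3_lc.kt.classB_inP

end Pool.Agent.Results.MP_6f30b3_lc.PolynomialTime
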